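import Pool.Agent.H27.L1.H34.GA.Targets1

/-!
Row CFA of the board ga: the matrix coefficients are bounded coefficient functions.
-/

set_option autoImplicit false

namespace Pool.Agent.H27.L1.H69.GA

open MeasureTheory Pool.Agent.H27.L1.H34.GM Pool.Agent.H27.L1.H34.GZ Pool.Agent.H27.L1.H34.GU Pool.Agent.H27.L1.H34.GA

theorem cfa_mt (m : ℕ) : Continuous (fun z : V m => mt z) := continuous_id

theorem cfa_det (m : ℕ) : Continuous (fun z : V m => (mt z).det) :=
  Continuous.matrix_det (cfa_mt m)

theorem cfa_ne {m : ℕ} (hm1 : 1 ≤ m) {z : V m} (h : 1 ≤ aN (mt z)) : (mt z).det ≠ 0 := by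
  intro h0
  unfold aN at h
  rw [h0, abs_zero, Real.zero_rpow] at h
  · linarith
  · have h4 : (m : ℝ) ≠ 0 := by exact_mod_cast (by omega : m ≠ 0)
    exact one_div_ne_zero h4

theorem cfa_inv {m : ℕ} {w : V m} (hw : (mt w).det ≠ 0) :
    ContinuousAt (fun w : V m => (mt w)⁻¹) w := by
  have h1 : (fun w : V m => (mt w)⁻¹) = fun w : V m => (mt w).det⁻¹ • (mt w).adjugate := by
    funext w
    rw [Matrix.inv_def, Ring.inverse_eq_inv']
  rw [h1]
  exact ((cfa_det m).continuousAt.inv₀ hw).smul
    (Continuous.matrix_adjugate (cfa_mt m)).continuousAt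

theorem cfa_invdet {m : ℕ} {w : Mat m} (hw : w.det ≠ 0) : (w⁻¹).det ≠ 0 := by
  rw [Matrix.det_nonsing_inv, Ring.inverse_eq_inv']
  exact inv_ne_zero hw

theorem pf_CFA (hVLM : T_VLM) (hRTI : T_RTI) (hALU : T_ALU) (hHAR : T_HAR) : T_CFA := by
  intro m N _ T D hS F lam hF
  have hm1 := hS.one_le
  have hN2 := hS.two_le
  have hD := hS.dom
  obtain ⟨C, K, -, hvl⟩ := hVLM m hm1
  have hfin : hm m D < ⊤ := lt_of_le_of_lt (hvl D hD).1 ENNReal.ofReal_lt_top
  obtain ⟨BF, hBF⟩ := hF.bdd
  have hdet : ∀ z ∈ D, (mt z).det ≠ 0 := fun z hz => cfa_ne hm1 (hD.shell z hz).1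
  have hfm : IsFiniteMeasure ((hm m).restrict D) := ⟨by rwa [Measure.restrict_apply_univ]⟩
  have hopen : IsOpen {g : Mat m | g.det ≠ 0} :=
    isOpen_ne_fun (Continuous.matrix_det continuous_id) continuous_const
  have hopenV : IsOpen {w : V m | (mt w).det ≠ 0} := isOpen_ne_fun (cfa_det m) continuous_const
  have hmuldet : ∀ z ∈ D, ∀ w : Mat m, w.det ≠ 0 → (mt z * w⁻¹).det ≠ 0 := by
    intro z hz w hw
    rw [Matrix.det_mul]
    exact mul_ne_zero (hdet z hz) (cfa_invdet hw)
  -- measurability of the translates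
  have hsm : ∀ (w : Mat m), w.det ≠ 0 → ∀ x,
      AEStronglyMeasurable (fun z : V m => F (mt z * w⁻¹) x) ((hm m).restrict D) := by
    intro w hw x
    have h1 : ContinuousOn (fun z : V m => F (mt z * w⁻¹) x) D := by
      refine (hF.cont x).comp ((cfa_mt m).mul continuous_const).continuousOn ?_
      exact fun z hz => hmuldet z hz w hw
    exact h1.aestronglyMeasurable hD.meas
  have hsm1 : ∀ x, AEStronglyMeasurable (fun z : V m => F (mt z) x) ((hm m).restrict D) := by
    intro x
    have h1 := hsm 1 (by simp) x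
    simpa using h1
  refine ⟨?_, ?_, ?_⟩
  · -- measurability
    have hco : ContinuousOn (fun w : V m => c1 D F (mt w)) {w : V m | (mt w).det ≠ 0} := by
      intro w0 hw0
      have hw0' : (mt w0).det ≠ 0 := hw0
      refine ContinuousAt.continuousWithinAt ?_
      unfold c1
      refine tendsto_finsetSum _ fun x _ => ?_
      have hnb : ∀ᶠ w in nhds w0, (mt w).det ≠ 0 := hopenV.mem_nhds hw0'
      have hca : ContinuousAt (fun w : V m => ∫ (z : V m) in D, F ((mt z : Mat m) * (mt w)⁻¹) x *
          (starRingEnd ℂ) (F (mt z) x) ∂(hm m)) w0 := by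
        refine continuousAt_of_dominated (bound := fun _ => BF * BF) ?_ ?_ ?_ ?_
        · filter_upwards [hnb] with w hw
          exact (hsm (mt w) hw x).mul
            (Complex.continuous_conj.comp_aestronglyMeasurable (hsm1 x))
        · filter_upwards [hnb] with w hw
          refine (ae_restrict_iff' hD.meas).2 (Filter.Eventually.of_forall fun z hz => ?_)
          rw [norm_mul, RCLike.norm_conj]
          have h1 := hBF _ x (hmuldet z hz (mt w) hw)
          have h2 := hBF _ x (hdet z hz)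
          exact mul_le_mul h1 h2 (norm_nonneg _) ((norm_nonneg _).trans h1)
        · exact integrable_const _
        · refine (ae_restrict_iff' hD.meas).2 (Filter.Eventually.of_forall fun z hz => ?_)
          have h1 : ContinuousAt (fun w : V m => mt z * (mt w)⁻¹) w0 :=
            continuousAt_const.mul (cfa_inv hw0')
          have h2 : ContinuousAt (fun g : Mat m => F g x) (mt z * (mt w0)⁻¹) :=
            (hF.cont x).continuousAt (hopen.mem_nhds (hmuldet z hz (mt w0) hw0'))
          exact (ContinuousAt.comp (g := fun g : Mat m => F g x)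
            (f := fun w : V m => mt z * (mt w)⁻¹) h2 h1).mul continuousAt_const
      exact hca
    have h1 := hco.aestronglyMeasurable (μ := hm m) hopenV.measurableSet
    have h2 : (hm m).restrict {w : V m | (mt w).det ≠ 0} = hm m := by
      refine Measure.restrict_eq_self_of_ae_mem ?_
      rw [ae_iff]
      simpa using (hHAR m hm1).2.2.1
    rw [h2] at h1
    exact h1
  · -- invariance under the positive scalars
    intro r hr w hw
    unfold c1
    refine Finset.sum_congr rfl fun x _ => setIntegral_congr_fun hD.meas fun z hz => ?_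
    show F (mt z * (r • w)⁻¹) x * _ = F (mt z * w⁻¹) x * _
    have h1 : (r • w)⁻¹ = r⁻¹ • w⁻¹ := by
      refine Matrix.inv_eq_left_inv ?_
      rw [Matrix.smul_mul, Matrix.mul_smul, smul_smul, inv_mul_cancel₀ hr.ne', one_smul,
        Matrix.nonsing_inv_mul _ (isUnit_iff_ne_zero.2 hw)]
    rw [h1, Matrix.mul_smul, hF.scal r⁻¹ (inv_pos.2 hr) _ x (hmuldet z hz w hw)]
  · -- the bound
    intro w hw
    have hwi := cfa_invdet hw
    have hint : ∀ x, Integrable (fun z : V m => ‖F (mt z) x‖ ^ 2) ((hm m).restrict D) := by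
      intro x
      refine Integrable.of_bound ((hsm1 x).norm.pow 2) (BF ^ 2) ?_
      rw [ae_restrict_iff' hD.meas]
      refine Filter.Eventually.of_forall fun z hz => ?_
      have h1 := hBF (mt z) x (hdet z hz)
      rw [Real.norm_of_nonneg (by positivity)]
      exact pow_le_pow_left₀ (norm_nonneg _) h1 2
    have hnF : nU D F = ∫ z in D, ∑ x : VN m N, ‖F (mt z) x‖ ^ 2 ∂(hm m) := by
      unfold nU
      rw [integral_finsetSum _ fun x _ => hint x]
    have hnn : 0 ≤ nU D F := by
      rw [hnF]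
      exact integral_nonneg fun z => Finset.sum_nonneg fun x _ => by positivity
    have hnL : ∫⁻ z in D, ENNReal.ofReal (∑ x : VN m N, ‖F (mt z) x‖ ^ 2) ∂(hm m) =
        ENNReal.ofReal (nU D F) := by
      rw [hnF, ofReal_integral_eq_lintegral_ofReal (integrable_finsetSum _ fun x _ => hint x)
        (Filter.Eventually.of_forall fun z => Finset.sum_nonneg fun x _ => by positivity)]
    -- the invariant function
    obtain ⟨S, hSd⟩ : ∃ S : V m → ℝ, S =
        Set.piecewise {z : V m | (mt z).det ≠ 0} (fun z => ∑ x : VN m N, ‖F (mt z) x‖ ^ 2)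
          (fun _ => (0 : ℝ)) := ⟨_, rfl⟩
    have hS1 : ∀ z, (mt z).det ≠ 0 → S z = ∑ x : VN m N, ‖F (mt z) x‖ ^ 2 := by
      intro z hz
      rw [hSd]
      exact Set.piecewise_eq_of_mem _ _ _ hz
    have hSm : Measurable S := by
      rw [hSd]
      refine ContinuousOn.measurable_piecewise ?_ continuousOn_const hopenV.measurableSet
      refine continuousOn_finsetSum _ fun x _ => ?_
      exact ((hF.cont x).comp (cfa_mt m).continuousOn (fun z hz => hz)).norm.pow 2
    have hbij := hALU m N hm1 hN2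
    have hrti := hRTI m hm1 D hD (fun z => ENNReal.ofReal (S z)) hSm.ennreal_ofReal ?_ ?_
      w⁻¹ hwi
    rotate_left
    · intro γ hγ z hz
      have hγ1 : (cR γ).det ≠ 0 := by
        have h1 : (cR γ).det = ((γ.det : ℤ) : ℝ) := ((Int.castRingHom ℝ).map_det γ).symm
        rw [h1]
        have h2 := (Matrix.isUnit_iff_isUnit_det γ).1 hγ
        exact_mod_cast h2.ne_zero
      have h2 : (mt (fun i j => (cR γ * mt z) i j : V m)).det ≠ 0 := by
        show (cR γ * mt z).det ≠ 0
        rw [Matrix.det_mul]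
        exact mul_ne_zero hγ1 hz
      show ENNReal.ofReal (S _) = ENNReal.ofReal (S z)
      rw [hS1 _ h2, hS1 _ hz]
      congr 1
      have h3 := hbij.2.2.2.2.2 γ hγ
      have h4 : (∑ x : VN m N, ‖F (cR γ * Pool.Agent.H27.L1.H34.GM.mt z) (ac N γ x)‖ ^ 2) =
          ∑ x : VN m N, ‖F (cR γ * Pool.Agent.H27.L1.H34.GM.mt z) x‖ ^ 2 :=
        h3.sum_comp (fun x => ‖F (cR γ * Pool.Agent.H27.L1.H34.GM.mt z) x‖ ^ 2)
      show (∑ x : VN m N, ‖F (cR γ * Pool.Agent.H27.L1.H34.GM.mt z) x‖ ^ 2) = _
      rw [← h4]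
      refine Finset.sum_congr rfl fun x _ => ?_
      rw [hF.auto γ hγ (mt z) x hz]
    · intro c hc z hz
      have h2 : (mt (c • z)).det ≠ 0 := by
        show (c • mt z).det ≠ 0
        rw [Matrix.det_smul, Fintype.card_fin]
        exact mul_ne_zero (pow_ne_zero _ hc.ne') hz
      show ENNReal.ofReal (S _) = ENNReal.ofReal (S z)
      rw [hS1 _ h2, hS1 _ hz]
      congr 1
      refine Finset.sum_congr rfl fun x _ => ?_
      show ‖F (c • mt z) x‖ ^ 2 = _
      rw [hF.scal c hc (mt z) x hz]
    have hR : ∫⁻ z in D, ENNReal.ofReal (∑ x : VN m N, ‖F (mt z * w⁻¹) x‖ ^ 2) ∂(hm m) =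
        ENNReal.ofReal (nU D F) := by
      rw [← hnL]
      have e1 : ∫⁻ z in D, ENNReal.ofReal (∑ x : VN m N, ‖F (mt z * w⁻¹) x‖ ^ 2) ∂(hm m) =
          ∫⁻ z in D, ENNReal.ofReal (S (fun i j => (mt z * w⁻¹) i j)) ∂(hm m) := by
        refine setLIntegral_congr_fun hD.meas fun z hz => ?_
        have h1 : (mt (fun i j => (mt z * w⁻¹) i j : V m)).det ≠ 0 := hmuldet z hz w hw
        show _ = ENNReal.ofReal (S _)
        rw [hS1 _ h1]
        rfl
      have e2 : ∫⁻ z in D, ENNReal.ofReal (S z) ∂(hm m) =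
          ∫⁻ z in D, ENNReal.ofReal (∑ x : VN m N, ‖F (mt z) x‖ ^ 2) ∂(hm m) := by
        refine setLIntegral_congr_fun hD.meas fun z hz => ?_
        show ENNReal.ofReal (S z) = _
        rw [hS1 z (hdet z hz)]
      rw [e1, ← e2]
      exact hrti
    -- one integral
    have hbi : ∀ x, Integrable (fun z : V m => F (mt z * w⁻¹) x *
        (starRingEnd ℂ) (F (mt z) x)) ((hm m).restrict D) := by
      intro x
      refine Integrable.of_bound ((hsm w hw x).mul
            (Complex.continuous_conj.comp_aestronglyMeasurable (hsm1 x))) (BF * BF) ?_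
      refine (ae_restrict_iff' hD.meas).2 (Filter.Eventually.of_forall fun z hz => ?_)
      rw [norm_mul, RCLike.norm_conj]
      have h1 := hBF _ x (hmuldet z hz w hw)
      have h2 := hBF _ x (hdet z hz)
      exact mul_le_mul h1 h2 (norm_nonneg _) ((norm_nonneg _).trans h1)
    show ‖∑ x : VN m N, ∫ (z : V m) in D, F (mt z * w⁻¹) x *
      (starRingEnd ℂ) (F (mt z) x) ∂(hm m)‖ ≤ nU D F
    rw [← integral_finsetSum _ fun x _ => hbi x]
    refine (norm_integral_le_lintegral_norm _).trans ?_
    refine ENNReal.toReal_le_of_le_ofReal hnn ?_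
    have hpt : ∀ z ∈ D, ENNReal.ofReal ‖∑ x : VN m N, F (mt z * w⁻¹) x *
        (starRingEnd ℂ) (F (mt z) x)‖ ≤
        ENNReal.ofReal (1 / 2) * ENNReal.ofReal (∑ x : VN m N, ‖F (mt z * w⁻¹) x‖ ^ 2) +
        ENNReal.ofReal (1 / 2) * ENNReal.ofReal (∑ x : VN m N, ‖F (mt z) x‖ ^ 2) := by
      intro z hz
      have hq1 : 0 ≤ ∑ x : VN m N, ‖F (mt z) x‖ ^ 2 := Finset.sum_nonneg fun x _ => by positivity
      have hq2 : 0 ≤ ∑ x : VN m N, ‖F (mt z * w⁻¹) x‖ ^ 2 :=
        Finset.sum_nonneg fun x _ => by positivity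
      rw [← ENNReal.ofReal_mul (by norm_num), ← ENNReal.ofReal_mul (by norm_num),
        ← ENNReal.ofReal_add (by positivity) (by positivity)]
      refine ENNReal.ofReal_le_ofReal ?_
      refine (norm_sum_le _ _).trans ?_
      rw [Finset.mul_sum, Finset.mul_sum, ← Finset.sum_add_distrib]
      refine Finset.sum_le_sum fun x _ => ?_
      rw [norm_mul, RCLike.norm_conj]
      nlinarith [sq_nonneg (‖F (mt z * w⁻¹) x‖ - ‖F (mt z) x‖)]
    refine (setLIntegral_mono' hD.meas hpt).trans ?_
    have hI2 : Integrable (fun z : V m => ∑ x : VN m N, ‖F (mt z * w⁻¹) x‖ ^ 2)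
        ((hm m).restrict D) := by
      refine integrable_finsetSum _ fun x _ => ?_
      refine Integrable.of_bound ((hsm w hw x).norm.pow 2) (BF ^ 2) ?_
      rw [ae_restrict_iff' hD.meas]
      refine Filter.Eventually.of_forall fun z hz => ?_
      have h1 := hBF _ x (hmuldet z hz w hw)
      rw [Real.norm_of_nonneg (by positivity)]
      exact pow_le_pow_left₀ (norm_nonneg _) h1 2
    rw [lintegral_add_left', lintegral_const_mul', lintegral_const_mul', hnL, hR]
    · rw [← ENNReal.ofReal_mul (by norm_num), ← ENNReal.ofReal_add (by positivity)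
        (by positivity)]
      refine le_of_eq ?_
      congr 1
      ring
    · exact ENNReal.ofReal_ne_top
    · exact ENNReal.ofReal_ne_top
    · refine AEMeasurable.const_mul ?_ _
      exact hI2.aestronglyMeasurable.aemeasurable.ennreal_ofReal

end Pool.Agent.H27.L1.H69.GA
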