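import Pool.Agent.H27.L1.H34.GA.Targets1

/-!
Row ENA of the board ga: the L-function of a form is entire.
-/

set_option autoImplicit false

namespace Pool.Agent.H27.L1.H69.GA

open MeasureTheory Pool.Agent.H27.L1.H34.GM Pool.Agent.H27.L1.H34.GZ Pool.Agent.H27.L1.H34.GU Pool.Agent.H27.L1.H34.GA

theorem pf_ENA (hPRF : T_PRF) (hBIA : T_BIA) (hNZR : T_NZR) (hRRC : T_RRC) (hDCA : T_DCA)
    (hNZU : T_NZU) (hCCO : T_CCO) (hCFA : T_CFA) (hZLO : T_ZLO) (hMLZ : T_MLZ)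
    (hSMA : Pool.Agent.H27.L1.H34.GA.T_SMA) (hLMA : T_LMA) (hGLA : T_GLA) : T_ENA := by
  obtain ⟨χ, hχ⟩ := hPRF
  intro m N _ T D hS F lam hF hNZ
  have hm : 1 ≤ m := hS.one_le
  obtain ⟨C1, hC1, hLam⟩ := hLMA m N T D hS F lam hF.toHecA hNZ
  refine hGLA m lam hm ⟨C1, hLam⟩ fun s => ?_
  obtain ⟨CB, hCB, hbi⟩ := hBIA m χ hm hχ
  obtain ⟨δ, hδ0, hδ2, hNZ'⟩ := hNZR m N T D hS F lam hF.toHecA hNZ χ hχ
  have hF' := hRRC m N T D hS F lam hF (bi m χ δ) (hbi δ hδ0 hδ2).1.toTg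
  have hD' := hDCA m N T D hS F lam hF χ δ hχ hδ0 hδ2
  obtain ⟨F', hF'd⟩ : ∃ F' : Mat m → VN m N → ℂ, F' = fun g x => Rr (bi m χ δ) 1 F g x :=
    ⟨_, rfl⟩
  rw [← hF'd] at hNZ' hF' hD'
  have hb := (hNZU m N T D hS F' lam hF'.toHecA).1 hNZ'
  obtain ⟨c0, c, A, hc0, hc, hZ⟩ := hZLO m χ hm hχ
  obtain ⟨δ1, hδ1, hnear⟩ := hCCO m N T D hS F' lam hF'.toHecA (nU D F' / 4) (by positivity)
  have hcof := hCFA m N T D hS F' lam hF'.toHecA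
  have hs0 : 0 < 1 + ‖s‖ := by
    have := norm_nonneg s
    linarith
  set δ2 : ℝ := min (1 / 2) (min (c0 / (1 + ‖s‖)) δ1) with hδ2d
  have h1 : 0 < δ2 := lt_min (by norm_num) (lt_min (by positivity) hδ1)
  have h2 : δ2 ≤ 1 / 2 := min_le_left _ _
  have h3 : δ2 ≤ c0 / (1 + ‖s‖) := (min_le_right _ _).trans (min_le_left _ _)
  have h4 : δ2 ≤ δ1 := (min_le_right _ _).trans (min_le_right _ _)
  have hΦ := (hbi δ2 h1 h2).1
  refine ⟨uu (bi m χ δ2) (c1 D F'), hSMA m N T D hS F' lam hF' hNZ' _ hΦ (Or.inl hD'), ?_⟩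
  rw [(hMLZ m hm (c1 D F') _ hcof _ hΦ.toTg).2.2 s]
  have h5 := hZ (c1 D F') _ (nU D F') hcof hb s δ2 h1 h2
    (by rwa [le_div_iff₀ hs0] at h3) (fun z hz => hnear z (hz.trans h4))
  intro h0
  rw [h0, norm_zero] at h5
  have h6 : 0 < c * nU D F' * δ2 ^ A := by positivity
  linarith

end Pool.Agent.H27.L1.H69.GA
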