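import Pool.Agent.H27.L1.H34.GA.Targets1

/-!
Row FEA of the board ga: the functional equation.
-/

set_option autoImplicit false

namespace Pool.Agent.H27.L1.H69.GA

open MeasureTheory Pool.Agent.H27.L1.H34.GM Pool.Agent.H27.L1.H34.GZ Pool.Agent.H27.L1.H34.GU Pool.Agent.H27.L1.H34.GA

theorem pf_FEA (hP1 : T_PA1) (hP2 : T_PA2) : T_FEA := by
  intro m N _ T D hS H xv hFr F lam hF hNZ Φ hΦ hAd r hr
  have hm : 1 ≤ m := hS.one_le
  have hm0 : (m : ℝ) ≠ 0 := by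
    have : m ≠ 0 := by omega
    exact_mod_cast this
  have h1 := hP1 m N T D hS F lam hF.toHecA Φ hΦ.toTg r hr
  have h2 := hP2 m N T D hS H xv hFr F lam hF hNZ Φ hΦ hAd r hr
  rw [h1] at h2
  have hN0 : (0 : ℝ) < N := by
    have h3 : 0 < N := by have := hS.two_le; omega
    exact_mod_cast h3
  have h4 : kp m N ^ (-((m : ℝ) ^ 2 / 2)) = (N : ℝ) ^ (-((m : ℝ) / 2)) := by
    unfold kp
    rw [← Real.rpow_mul hN0.le]
    congr 1
    field_simp
  have h5 : (0 : ℝ) ≤ r ^ (m ^ 2) * (N : ℝ) ^ (-((m : ℝ) / 2)) := by positivity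
  rw [h2, norm_mul, Complex.norm_real, Real.norm_eq_abs, abs_of_nonneg h5, h4,
    RCLike.norm_conj]

end Pool.Agent.H27.L1.H69.GA
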